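import Pool.Agent.Work.MP_09c931_an.Final

/-!
# The approximate-identity criterion for amenability fails for Arens-Michael algebras

The example is the unital commutative Arens-Michael algebra `A = C(ω₁)` of all continuous
complex functions on the space of countable ordinals, with the topology of uniform convergence on
compact sets.  The ideal `I^Δ` has a bounded right approximate identity
(built from the finite partitions of `ω₁` into clopen intervals), but for the bimodule
`X = C({(s, t) : s < t < ω₁})`, `(a · x · b) (s, t) = a s * x (s, t) * b t`, the image of `d₀` is
a proper dense subspace, so that `H₀(A, X)` is not Hausdorff and `A` is not amenable.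
-/

set_option autoImplicit false

namespace Pool.Agent.Results.MP_09c931_an.Counterexample

open Pool.Agent.Work.MP_09c931_an

/-- There is a (non-metrizable) Arens-Michael algebra `A` such that `I^Δ` has a bounded right
approximate identity and `A` is not amenable. -/
theorem result : ∃ A : PAlg.{0},
    A.IsArensMichael ∧ ¬ FirstCountableTopology A.S ∧ A.HasBRAI ∧ ¬ A.Amenable :=
  ⟨COmega, COmega_isArensMichael, COmega_not_firstCountable, COmega_hasBRAI, COmega_not_amenable⟩

end Pool.Agent.Results.MP_09c931_an.Counterexample
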